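import Pool.Agent.H921R2.TatePole.Base

/-! XT-RES: the Euler product of the Dedekind zeta function at real arguments. -/

set_option autoImplicit false
set_option linter.all false

namespace Pool.Agent.Y125.XT

open NumberField IsDedekindDomain Filter Topology
open Pool.Agent.H921R2.TatePole

section
variable {K : Type} [Field K] [NumberField K]

lemma pow_mul_inj {q : HeightOneSpectrum (𝓞 K)} {i j : ℕ} {I J : Ideal (𝓞 K)}
    (hI : ¬ q.asIdeal ∣ I) (hJ : ¬ q.asIdeal ∣ J) (h : q.asIdeal ^ i * I = q.asIdeal ^ j * J) :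
    i = j ∧ I = J := by
  have key : ∀ (i j : ℕ) (I J : Ideal (𝓞 K)), ¬ q.asIdeal ∣ I → q.asIdeal ^ i * I = q.asIdeal ^ j * J →
      i ≤ j → i = j ∧ I = J := by
    intro i j I J hI h hij
    have hq : q.asIdeal ^ i ≠ 0 := pow_ne_zero _ q.ne_bot
    have h2 : q.asIdeal ^ i * I = q.asIdeal ^ i * (q.asIdeal ^ (j - i) * J) := by
      rw [h, ← mul_assoc, ← pow_add, Nat.add_sub_cancel' hij]
    have h3 := mul_left_cancel₀ hq h2
    have h4 : j - i = 0 := by
      by_contra hne
      apply hI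
      rw [h3]
      exact (dvd_pow_self _ hne).mul_right _
    have h5 : i = j := by omega
    rw [h4, pow_zero, one_mul] at h3
    exact ⟨h5, h3⟩
  rcases le_total i j with hij | hij
  · exact key i j I J hI h hij
  · obtain ⟨h1, h2⟩ := key j i J I hJ h.symm hij
    exact ⟨h1.symm, h2.symm⟩

/-- products over primes are bounded by the zeta value -/
lemma smooth_mul_le {x : ℝ} (hx : 1 < x) (F : Finset (HeightOneSpectrum (𝓞 K))) :
    ∀ A : Finset (Ideal (𝓞 K)), (∀ I ∈ A, I ≠ ⊥ ∧ ∀ v ∈ F, ¬ v.asIdeal ∣ I) →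
    (∑ I ∈ A, ((Ideal.absNorm I : ℕ) : ℝ) ^ (-x)) * ∏ v ∈ F, (1 - (nm v : ℝ) ^ (-x))⁻¹ ≤ ZK K x := by
  classical
  induction F using Finset.induction_on with
  | empty =>
    intro A hA
    rw [Finset.prod_empty, mul_one]
    exact sum_ideals_le hx A fun I hI => (hA I hI).1
  | insert q F hq ih =>
    intro A hA
    set u : ℝ := (nm q : ℝ) ^ (-x) with hu
    have hu0 : 0 ≤ u := by positivity
    have hu1 : u < 1 := lt_of_le_of_lt (nm_rpow_le_half q hx.le) (by norm_num)
    set C : ℝ := (∑ I ∈ A, ((Ideal.absNorm I : ℕ) : ℝ) ^ (-x)) *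
      ∏ v ∈ F, (1 - (nm v : ℝ) ^ (-x))⁻¹ with hC
    have hM : ∀ M : ℕ, (∑ j ∈ Finset.range M, u ^ j) * C ≤ ZK K x := by
      intro M
      set B : Finset (Ideal (𝓞 K)) := (Finset.range M ×ˢ A).image (fun z => q.asIdeal ^ z.1 * z.2) with hBdef
      have hB : ∀ J ∈ B, J ≠ ⊥ ∧ ∀ v ∈ F, ¬ v.asIdeal ∣ J := by
        intro J hJ
        obtain ⟨⟨k, I⟩, hz, rfl⟩ := Finset.mem_image.1 hJ
        have hI := (Finset.mem_product.1 hz).2
        refine ⟨?_, fun v hv hd => ?_⟩
        · rw [← Ideal.zero_eq_bot]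
          exact mul_ne_zero (pow_ne_zero _ q.ne_bot) (hA I hI).1
        · rcases v.prime.dvd_or_dvd hd with h | h
          · have h1 : v.asIdeal ∣ q.asIdeal := v.prime.dvd_of_dvd_pow h
            have h2 : v = q := HeightOneSpectrum.ext
              (associated_iff_eq.mp (v.prime.associated_of_dvd q.prime h1))
            exact hq (h2 ▸ hv)
          · exact (hA I hI).2 v (Finset.mem_insert_of_mem hv) h
      have hinj : Set.InjOn (fun z : ℕ × Ideal (𝓞 K) => q.asIdeal ^ z.1 * z.2)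
          ((Finset.range M ×ˢ A : Finset (ℕ × Ideal (𝓞 K))) : Set (ℕ × Ideal (𝓞 K))) := by
        rintro ⟨i, I⟩ hI ⟨j, J⟩ hJ h
        have hI' := (Finset.mem_product.1 (Finset.mem_coe.1 hI)).2
        have hJ' := (Finset.mem_product.1 (Finset.mem_coe.1 hJ)).2
        obtain ⟨h1, h2⟩ := pow_mul_inj ((hA I hI').2 q (Finset.mem_insert_self _ _))
          ((hA J hJ').2 q (Finset.mem_insert_self _ _)) h
        exact Prod.ext h1 h2
      have h3 := ih B hB
      rw [hBdef, Finset.sum_image hinj, Finset.sum_product] at h3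
      have h4 : ∑ j ∈ Finset.range M, ∑ I ∈ A,
          ((Ideal.absNorm (q.asIdeal ^ j * I) : ℕ) : ℝ) ^ (-x) =
          (∑ j ∈ Finset.range M, u ^ j) * ∑ I ∈ A, ((Ideal.absNorm I : ℕ) : ℝ) ^ (-x) := by
        rw [Finset.sum_mul_sum]
        refine Finset.sum_congr rfl fun j _ => Finset.sum_congr rfl fun I _ => ?_
        rw [map_mul, map_pow]
        push_cast
        rw [Real.mul_rpow (by positivity) (by positivity)]
        congr 1
        change (((nm q : ℕ) : ℝ) ^ j) ^ (-x) = _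
        rw [hu, ← Real.rpow_natCast, ← Real.rpow_mul (by positivity), ← Real.rpow_natCast,
          ← Real.rpow_mul (by positivity)]
        congr 1
        ring
      have h5 : (∑ j ∈ Finset.range M, u ^ j) * C = (∑ j ∈ Finset.range M, ∑ I ∈ A,
          ((Ideal.absNorm (q.asIdeal ^ j * I) : ℕ) : ℝ) ^ (-x)) *
            ∏ v ∈ F, (1 - (nm v : ℝ) ^ (-x))⁻¹ := by
        rw [h4, hC, mul_assoc]
      rw [h5]
      exact h3
    have hlim : Tendsto (fun M => (∑ j ∈ Finset.range M, u ^ j) * C) atTop (𝓝 ((1 - u)⁻¹ * C)) :=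
      ((hasSum_geometric_of_lt_one hu0 hu1).tendsto_sum_nat).mul_const _
    have h6 := le_of_tendsto' hlim hM
    rw [Finset.prod_insert hq]
    calc _ = (1 - u)⁻¹ * C := by rw [hC]; ring
      _ ≤ _ := h6

lemma prod_le_ZK {x : ℝ} (hx : 1 < x) (F : Finset (HeightOneSpectrum (𝓞 K))) :
    ∏ v ∈ F, (1 - (nm v : ℝ) ^ (-x))⁻¹ ≤ ZK K x := by
  have h := smooth_mul_le hx F {⊤} (by
    intro I hI
    rw [Finset.mem_singleton] at hI
    subst hI
    refine ⟨top_ne_bot, fun v _ hd => ?_⟩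
    apply v.isPrime.ne_top
    rw [← Ideal.one_eq_top] at hd ⊢
    exact isUnit_iff_eq_one.1 (isUnit_of_dvd_one hd))
  rw [Finset.sum_singleton, Ideal.absNorm_top, Nat.cast_one, Real.one_rpow, one_mul] at h
  exact h

/-- the zeta value is bounded by the products over primes -/
lemma ZK_le_of {x c : ℝ} (hx : 1 < x) (hc : ∀ F : Finset (HeightOneSpectrum (𝓞 K)),
    ∏ v ∈ F, (1 - (nm v : ℝ) ^ (-x))⁻¹ ≤ c) : ZK K x ≤ c := by
  classical
  unfold ZK
  refine Real.tsum_le_of_sum_range_le (fun n => ?_) fun X => ?_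
  · split_ifs
    · exact le_rfl
    · exact mul_nonneg (aK_nonneg n) (by positivity)
  · -- the set of nonzero ideals of norm `< X`
    set A : Finset (Ideal (𝓞 K)) := ((Ideal.finite_setOfPred_absNorm_le (S := 𝓞 K) X).subset
      (t := {I : Ideal (𝓞 K) | Ideal.absNorm I < X ∧ I ≠ ⊥}) (by
        rintro I ⟨h, _⟩; exact h.le)).toFinset with hA
    have hAmem : ∀ I, I ∈ A ↔ Ideal.absNorm I < X ∧ I ≠ ⊥ := by
      intro I; rw [hA]; simp
    have hsum : ∑ n ∈ Finset.range X, (if n = 0 then 0 else aK K n * (n : ℝ) ^ (-x)) ≤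
        ∑ I ∈ A, ((Ideal.absNorm I : ℕ) : ℝ) ^ (-x) := by
      have e1 : ∑ I ∈ A, ((Ideal.absNorm I : ℕ) : ℝ) ^ (-x) =
          ∑ n ∈ Finset.range X, ∑ I ∈ A with Ideal.absNorm I = n,
            ((Ideal.absNorm I : ℕ) : ℝ) ^ (-x) := by
        rw [Finset.sum_fiberwise_of_maps_to]
        intro I hI
        exact Finset.mem_range.mpr ((hAmem I).mp hI).1
      rw [e1]
      refine Finset.sum_le_sum fun n hn => ?_
      split_ifs with hn0
      · exact Finset.sum_nonneg fun I _ => by positivity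
      · have e2 : ∑ I ∈ A with Ideal.absNorm I = n, ((Ideal.absNorm I : ℕ) : ℝ) ^ (-x) =
            ({I ∈ A | Ideal.absNorm I = n}.card : ℝ) * (n : ℝ) ^ (-x) := by
          rw [Finset.sum_congr rfl (g := fun _ => (n : ℝ) ^ (-x)) (fun I hI => by
            rw [(Finset.mem_filter.mp hI).2])]
          simp
        rw [e2]
        refine mul_le_mul_of_nonneg_right ?_ (by positivity)
        unfold aK
        have hfin : Finite {J : Ideal (𝓞 K) // Ideal.absNorm J = n} :=
          Set.Finite.to_subtype (Ideal.finite_setOfPred_absNorm_eq (S := 𝓞 K) n)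
        have := Fintype.ofFinite {J : Ideal (𝓞 K) // Ideal.absNorm J = n}
        rw [Nat.card_eq_fintype_card]
        norm_cast
        rw [← Finset.card_univ]
        refine Finset.card_le_card_of_injOn (f := fun J => J.1) (fun J _ => ?_)
          (fun J _ J' _ h => Subtype.ext h)
        simp only [Finset.coe_filter, Set.mem_ofPred_eq]
        refine ⟨(hAmem _).mpr ⟨by rw [J.2]; exact Finset.mem_range.mp hn, ?_⟩, J.2⟩
        intro h0
        apply hn0
        rw [← J.2, h0, Ideal.absNorm_bot]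
    refine hsum.trans ?_
    -- the primes dividing some ideal of `A`
    have hF : ∃ F : Finset (HeightOneSpectrum (𝓞 K)), ∀ I ∈ A, ∀ v : HeightOneSpectrum (𝓞 K),
        v.asIdeal ∣ I → v ∈ F := by
      have hfin : (⋃ I ∈ A, {v : HeightOneSpectrum (𝓞 K) | v.asIdeal ∣ I}).Finite := by
        refine Set.Finite.biUnion A.finite_toSet fun I hI => ?_
        refine Ideal.finite_factors ?_
        rw [Ideal.zero_eq_bot]
        exact ((hAmem I).mp hI).2
      refine ⟨hfin.toFinset, fun I hI v hv => ?_⟩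
      rw [Set.Finite.mem_toFinset]
      exact Set.mem_biUnion (x := I) hI hv
    obtain ⟨F, hF⟩ := hF
    exact (sum_smooth_le hx F A fun I hI => ⟨((hAmem I).mp hI).2, hF I hI⟩).trans (hc F)

lemma ZK_pos' {x : ℝ} (hx : 1 < x) : 0 < ZK K x := by
  have h := prod_le_ZK (K := K) hx ∅
  rw [Finset.prod_empty] at h
  linarith

/-- the Euler product -/
theorem hasProd_ZK {x : ℝ} (hx : 1 < x) :
    HasProd (fun v : HeightOneSpectrum (𝓞 K) => (1 - (nm v : ℝ) ^ (-x))⁻¹) (ZK K x) := by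
  have hpos : ∀ v : HeightOneSpectrum (𝓞 K), 0 < 1 - (nm v : ℝ) ^ (-x) := fun v => by
    have := nm_rpow_le_half v hx.le
    linarith
  have hprod : ∀ F : Finset (HeightOneSpectrum (𝓞 K)), ∏ v ∈ F, (1 - (nm v : ℝ) ^ (-x))⁻¹ =
      Real.exp (∑ v ∈ F, Real.log (1 - (nm v : ℝ) ^ (-x))⁻¹) := by
    intro F
    rw [Real.exp_sum]
    exact Finset.prod_congr rfl fun v _ => (Real.exp_log (inv_pos.2 (hpos v))).symm
  have hs : HasSum (fun v : HeightOneSpectrum (𝓞 K) => Real.log (1 - (nm v : ℝ) ^ (-x))⁻¹)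
      (Real.log (ZK K x)) := by
    refine hasSum_of_isLUB_of_nonneg _ (fun v => ?_) ⟨?_, ?_⟩
    · refine Real.log_nonneg ((one_le_inv₀ (hpos v)).2 ?_)
      have : 0 ≤ (nm v : ℝ) ^ (-x) := by positivity
      linarith
    · rintro _ ⟨F, rfl⟩
      rw [Real.le_log_iff_exp_le (ZK_pos' hx), ← hprod F]
      exact prod_le_ZK hx F
    · intro B hB
      rw [Real.log_le_iff_le_exp (ZK_pos' hx)]
      refine ZK_le_of hx fun F => ?_
      rw [hprod F, Real.exp_le_exp]
      exact hB ⟨F, rfl⟩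
  have h := hs.rexp
  rw [Real.exp_log (ZK_pos' hx)] at h
  have e : (Real.exp ∘ fun v : HeightOneSpectrum (𝓞 K) => Real.log (1 - (nm v : ℝ) ^ (-x))⁻¹) =
      fun v : HeightOneSpectrum (𝓞 K) => (1 - (nm v : ℝ) ^ (-x))⁻¹ :=
    funext fun v => Real.exp_log (inv_pos.2 (hpos v))
  rwa [e] at h

end

end Pool.Agent.Y125.XT
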