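import Pool.Agent.Y682.XT.Stm
import Pool.Agent.Y125.XT.Loc
import Pool.Agent.Y125.XT.Dz

/-! XT-RES: the residue of the Dedekind zeta function of a subfield of a cyclotomic field. -/

set_option autoImplicit false
set_option linter.all false

namespace Pool.Agent.Y125.XT

open NumberField IsDedekindDomain Filter Topology H300.HW
open Pool.Agent.H921R2.TatePole
open Pool.Agent.Y682.XT (Lone S_RES)

section
variable (n : ℕ) [NeZero n] (L : Type) [Field L] [NumberField L] [IsCyclotomicExtension {n} ℚ L]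
  (F : IntermediateField ℚ L)

instance condNe (χ : DirichletCharacter ℂ n) : NeZero χ.conductor := ⟨χ.conductor_ne_zero⟩

/-- the `L`-function of the primitive character -/
noncomputable def Lp (χ : DirichletCharacter ℂ n) (s : ℂ) : ℂ :=
  DirichletCharacter.LFunction χ.primitiveCharacter s

lemma hasProd_Lp (χ : DirichletCharacter ℂ n) {s : ℂ} (hs : 1 < s.re) :
    HasProd (fun p : Nat.Primes => (1 - pv n χ p * (p : ℂ) ^ (-s))⁻¹) (Lp n χ s) := by
  unfold Lp
  rw [DirichletCharacter.LFunction_eq_LSeries _ hs]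
  exact DirichletCharacter.LSeries_eulerProduct_hasProd _ hs

open Classical in
/-- the Euler product of the Dedekind zeta function as a product of `L`-functions -/
theorem ZK_eq {x : ℝ} (hx : 1 < x) :
    ((ZK F x : ℝ) : ℂ) = ∏ χ : YY n L F, Lp n χ.1 x := by
  have h1 : HasProd (fun p : Nat.Primes => ∏ χ : YY n L F, (1 - pv n χ.1 p * (p : ℂ) ^ (-(x : ℂ)))⁻¹)
      (∏ χ : YY n L F, Lp n χ.1 x) := by
    apply hasProd_prod
    intro χ _
    exact hasProd_Lp n χ.1 (by rw [Complex.ofReal_re]; exact hx)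
  have h2 : HasProd (fun v : HeightOneSpectrum (𝓞 F) => (1 - (nm v : ℂ) ^ (-(x : ℂ)))⁻¹)
      ((ZK F x : ℝ) : ℂ) := by
    have h := (hasProd_ZK (K := F) hx).map Complex.ofRealHom Complex.continuous_ofReal
    have e : (⇑Complex.ofRealHom ∘ fun v : HeightOneSpectrum (𝓞 F) => (1 - (nm v : ℝ) ^ (-x))⁻¹) =
        fun v : HeightOneSpectrum (𝓞 F) => (1 - (nm v : ℂ) ^ (-(x : ℂ)))⁻¹ := by
      funext v
      rw [Function.comp_apply, Complex.ofRealHom_eq_coe]
      push_cast
      rw [Complex.ofReal_cpow (by positivity)]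
      push_cast
      rfl
    rw [e] at h
    exact h
  have h3 : ∀ p : Nat.Primes, ∏ χ : YY n L F, (1 - pv n χ.1 p * (p : ℂ) ^ (-(x : ℂ)))⁻¹ =
      ∏ v : {v : HeightOneSpectrum (𝓞 F) // below v = p}, (1 - (nm v.1 : ℂ) ^ (-(x : ℂ)))⁻¹ := by
    intro p
    rw [Finset.prod_inv_distrib, ← local_all n L F p, Finset.prod_inv_distrib]
    congr 1
    refine Finset.prod_congr rfl fun v _ => ?_
    congr 1
    obtain ⟨a1, a2, -⟩ := nm_eq v.1
    rw [a1, v.2]
    push_cast
    rw [← Complex.cpow_nat_mul, ← Complex.natCast_cpow_natCast_mul]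
  have h4 := (Equiv.sigmaFiberEquiv (below (K := F))).hasProd_iff.2 h2
  have h5 := h4.sigma (g := fun p : Nat.Primes =>
      ∏ v : {v : HeightOneSpectrum (𝓞 F) // below v = p}, (1 - (nm v.1 : ℂ) ^ (-(x : ℂ)))⁻¹)
    (fun p => hasProd_fintype _)
  simp_rw [h3] at h1
  exact h5.unique h1

open Classical in
theorem residue_eq : (dedekindZeta_residue F : ℂ) =
    ∏ χ ∈ (Finset.univ : Finset (YY n L F)).erase 1, Lp n χ.1 1 := by
  have h1 : Tendsto (fun x : ℝ => (((x - 1) * ZK F x : ℝ) : ℂ)) (𝓝[>] 1)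
      (𝓝 ((dedekindZeta_residue F : ℝ) : ℂ)) :=
    (Complex.continuous_ofReal.tendsto _).comp (ZK_tendsto (K := F))
  have hto : Tendsto (fun x : ℝ => (x : ℂ)) (𝓝[>] 1) (𝓝[≠] 1) := by
    refine tendsto_nhdsWithin_iff.2 ⟨?_, ?_⟩
    · have := (Complex.continuous_ofReal.tendsto (1 : ℝ)).mono_left
        (nhdsWithin_le_nhds (s := Set.Ioi (1 : ℝ)))
      simpa using this
    · filter_upwards [self_mem_nhdsWithin] with x hx
      have hx' : (1 : ℝ) < x := hx
      show (x : ℂ) ∈ ({1}ᶜ : Set ℂ)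
      rw [Set.mem_compl_singleton_iff]
      exact_mod_cast hx'.ne'
  have h2 : Tendsto (fun x : ℝ => ((x : ℂ) - 1) * Lp n (1 : DirichletCharacter ℂ n) x) (𝓝[>] 1) (𝓝 1) := by
    have a1 : (1 : DirichletCharacter ℂ n).conductor = 1 := DirichletCharacter.conductor_one
    have a2 := (DirichletCharacter.LFunctionTrivChar_residue_one
      (N := (1 : DirichletCharacter ℂ n).conductor)).comp hto
    have a3 : ∏ p ∈ (1 : DirichletCharacter ℂ n).conductor.primeFactors, (1 - (p : ℂ)⁻¹) = 1 := by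
      rw [a1, Nat.primeFactors_one, Finset.prod_empty]
    rw [a3] at a2
    refine a2.congr fun x => ?_
    unfold Lp
    rw [DirichletCharacter.primitiveCharacter_one]
    rfl
  have h3 : ∀ χ ∈ (Finset.univ : Finset (YY n L F)).erase 1,
      Tendsto (fun x : ℝ => Lp n χ.1 x) (𝓝[>] 1) (𝓝 (Lp n χ.1 1)) := by
    intro χ hχ
    have hne : χ.1 ≠ 1 := fun h => (Finset.mem_erase.1 hχ).1 (Subtype.ext h)
    have hp : χ.1.primitiveCharacter ≠ 1 := by
      intro h
      apply hne
      have := χ.1.changeLevel_primitiveCharacter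
      rw [h, DirichletCharacter.changeLevel_one] at this
      exact this.symm
    have hc : Continuous (DirichletCharacter.LFunction χ.1.primitiveCharacter) :=
      (DirichletCharacter.differentiable_LFunction hp).continuous
    have := (hc.tendsto 1).comp (hto.mono_right nhdsWithin_le_nhds)
    exact this
  have h4 : Tendsto (fun x : ℝ => ((x : ℂ) - 1) * Lp n (1 : DirichletCharacter ℂ n) x *
      ∏ χ ∈ (Finset.univ : Finset (YY n L F)).erase 1, Lp n χ.1 x) (𝓝[>] 1)
      (𝓝 (1 * ∏ χ ∈ (Finset.univ : Finset (YY n L F)).erase 1, Lp n χ.1 1)) :=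
    h2.mul (tendsto_finsetProd _ h3)
  rw [one_mul] at h4
  refine tendsto_nhds_unique_of_eventuallyEq h1 h4 ?_
  filter_upwards [self_mem_nhdsWithin] with x hx
  push_cast
  rw [ZK_eq n L F hx, ← Finset.mul_prod_erase Finset.univ _ (Finset.mem_univ (1 : YY n L F)), ← mul_assoc]
  rfl

end

open Classical in
theorem s_res : S_RES := by
  intro n _ L _ _ _ F
  rw [residue_eq n L F]
  rw [finprod_eq_prod_of_fintype]
  refine Finset.prod_bij' (i := fun χ hχ => (⟨χ.1, χ.2, fun h =>
    (Finset.mem_erase.1 hχ).1 (Subtype.ext h)⟩ : {χ : DirichletCharacter ℂ n // χ ∈ YY n L F ∧ χ ≠ 1}))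
    (j := fun χ _ => (⟨χ.1, χ.2.1⟩ : YY n L F)) ?_ ?_ ?_ ?_ ?_
  · intro χ _
    exact Finset.mem_univ _
  · intro χ _
    exact Finset.mem_erase.2 ⟨fun h => χ.2.2 (congrArg Subtype.val h), Finset.mem_univ _⟩
  · intro χ _
    rfl
  · intro χ _
    rfl
  · intro χ _
    rfl

end Pool.Agent.Y125.XT
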